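import Pool.Agent.W872.MX.Stm

/-!
# Project MX: part SUM
-/

set_option autoImplicit false

namespace Pool.Agent.W616.MX

open Finset W872.MX

/-- double sums of a symmetric function vanishing on the diagonal -/
lemma dsum {V : Type} [DecidableEq V] (f : V → V → ℝ) (hs : ∀ a b, f a b = f b a)
    (h0 : ∀ a, f a a = 0) (S : Finset V) (v : V) (hv : v ∉ S) :
    ∑ u ∈ insert v S, ∑ w ∈ insert v S, f u w =
      ∑ u ∈ S, ∑ w ∈ S, f u w + 2 * ∑ w ∈ insert v S, f v w := by
  rw [Finset.sum_insert hv, Finset.sum_insert hv, h0 v]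
  have : ∀ u ∈ S, ∑ w ∈ insert v S, f u w = f v u + ∑ w ∈ S, f u w := by
    intro u _
    rw [Finset.sum_insert hv, hs u v]
  rw [Finset.sum_congr rfl this, Finset.sum_add_distrib]
  ring

open scoped Classical in
/-- the cost of a pair -/
noncomputable def cst {n : ℕ} (G : MG (Fin n)) (p : ℝ) (v u : Fin n) : ℝ :=
  p * (if u ≠ v ∧ ¬ G.red.Adj v u then 1 else 0) +
    (1 - p) * (if u ≠ v ∧ ¬ G.blue.Adj v u then 1 else 0)

lemma cst_sum {n : ℕ} (G : MG (Fin n)) (p : ℝ) (S : Finset (Fin n)) (v : Fin n) :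
    p * (nonred G S v : ℝ) + (1 - p) * (nonblue G S v : ℝ) = ∑ u ∈ S, cst G p v u := by
  classical
  have h1 : (nonred G S v : ℝ) = ∑ u ∈ S, (if u ≠ v ∧ ¬ G.red.Adj v u then (1 : ℝ) else 0) := by
    unfold nonred
    rw [Finset.card_filter]
    push_cast
    refine Finset.sum_congr rfl (fun u _ => ?_)
    split_ifs <;> rfl
  have h2 : (nonblue G S v : ℝ) =
      ∑ u ∈ S, (if u ≠ v ∧ ¬ G.blue.Adj v u then (1 : ℝ) else 0) := by
    unfold nonblue
    rw [Finset.card_filter]
    push_cast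
    refine Finset.sum_congr rfl (fun u _ => ?_)
    split_ifs <;> rfl
  rw [h1, h2, Finset.mul_sum, Finset.mul_sum, ← Finset.sum_add_distrib]
  refine Finset.sum_congr rfl (fun u _ => ?_)
  unfold cst
  split_ifs <;> rfl

lemma cst_symm {n : ℕ} (G : MG (Fin n)) (p : ℝ) (a b : Fin n) : cst G p a b = cst G p b a := by
  classical
  unfold cst
  have h1 : (b ≠ a ∧ ¬ G.red.Adj a b) ↔ (a ≠ b ∧ ¬ G.red.Adj b a) := by
    rw [G.red.adj_comm, ne_comm]
  have h2 : (b ≠ a ∧ ¬ G.blue.Adj a b) ↔ (a ≠ b ∧ ¬ G.blue.Adj b a) := by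
    rw [G.blue.adj_comm, ne_comm]
  congr 1
  · congr 1
    by_cases h : b ≠ a ∧ ¬ G.red.Adj a b
    · rw [if_pos h, if_pos (h1.1 h)]
    · rw [if_neg h, if_neg (fun h' => h (h1.2 h'))]
  · congr 1
    by_cases h : b ≠ a ∧ ¬ G.blue.Adj a b
    · rw [if_pos h, if_pos (h2.1 h)]
    · rw [if_neg h, if_neg (fun h' => h (h2.2 h'))]

lemma cst_self {n : ℕ} (G : MG (Fin n)) (p : ℝ) (a : Fin n) : cst G p a a = 0 := by
  unfold cst
  simp

/-- PART.SUM -/
theorem main : PartSUM := by
  intro n G p g hg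
  have key : ∀ (N : ℕ) (S : Finset (Fin n)), S.card = N → ∑ m ∈ range S.card, g (m + 1) ≤
      (1 / 2) * ∑ v ∈ S, (p * (nonred G S v : ℝ) + (1 - p) * (nonblue G S v : ℝ)) := by
    intro N
    induction N with
    | zero =>
      intro S hS
      have : S = ∅ := Finset.card_eq_zero.1 hS
      subst this
      simp
    | succ N ih =>
      intro S hS
      have hne : S.Nonempty := by
        rw [← Finset.card_pos]
        omega
      obtain ⟨v, hv, hgv⟩ := hg S hne
      have hcard : (S.erase v).card = N := by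
        rw [Finset.card_erase_of_mem hv]
        omega
      have h1 := ih (S.erase v) hcard
      have h2 := dsum (cst G p) (cst_symm G p) (cst_self G p) (S.erase v) v
        (Finset.notMem_erase v S)
      rw [Finset.insert_erase hv] at h2
      simp only [cst_sum] at h1 hgv ⊢
      rw [h2, hS, Finset.sum_range_succ]
      rw [hcard] at h1
      rw [hS] at hgv
      linarith
  intro S
  exact key S.card S rfl

end Pool.Agent.W616.MX
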